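import Mathlib

/-!
# A contact point with a large slope
-/

set_option autoImplicit false

namespace Pool.Agent.H62

open Set

/-- two sided modulus of continuity -/
theorem contact_mod (y : ℝ → ℝ)
    (hup : ∀ v ∈ Ioo (0:ℝ) 1, ∀ ρ ∈ Ioo (0:ℝ) 1, y (v + (1 - v) * ρ ^ 2) ≤ y v + 2 * ρ)
    (hdown : ∀ v ∈ Ioo (0:ℝ) 1, ∀ ρ ∈ Ioo (0:ℝ) 1, y (v * (1 - ρ ^ 2)) ≤ y v + 2 * ρ)
    (m v w : ℝ) (hm : 0 < m) (hv : v ∈ Ioo (0:ℝ) 1) (hw : w ∈ Ioo (0:ℝ) 1) (hvm : m ≤ v)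
    (hvm' : m ≤ 1 - v) : y w ≤ y v + 2 * √(|w - v| / m) := by
  rcases lt_trichotomy v w with h | h | h
  · have h1 : 0 < 1 - v := by linarith [hv.2]
    have h2 : 0 < (w - v) / (1 - v) := div_pos (by linarith) h1
    have h3 : (w - v) / (1 - v) < 1 := by rw [div_lt_one h1]; linarith [hw.2]
    have h4 := hup v hv (√((w - v) / (1 - v)))
      ⟨Real.sqrt_pos.2 h2, by rw [Real.sqrt_lt' one_pos]; simpa using h3⟩
    rw [Real.sq_sqrt h2.le, mul_div_cancel₀ _ h1.ne'] at h4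
    have h5 : v + (w - v) = w := by ring
    rw [h5] at h4
    refine h4.trans ?_
    gcongr
    exact le_abs_self _
  · subst h
    simp
  · have h1 : 0 < v := hv.1
    have h2 : 0 < (v - w) / v := div_pos (by linarith) h1
    have h3 : (v - w) / v < 1 := by rw [div_lt_one h1]; linarith [hw.1]
    have h4 := hdown v hv (√((v - w) / v))
      ⟨Real.sqrt_pos.2 h2, by rw [Real.sqrt_lt' one_pos]; simpa using h3⟩
    rw [Real.sq_sqrt h2.le] at h4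
    have h5 : v * (1 - (v - w) / v) = w := by field_simp; ring
    rw [h5] at h4
    refine h4.trans ?_
    gcongr
    rw [abs_sub_comm]
    exact le_abs_self _

theorem contact_cont (y : ℝ → ℝ)
    (hup : ∀ v ∈ Ioo (0:ℝ) 1, ∀ ρ ∈ Ioo (0:ℝ) 1, y (v + (1 - v) * ρ ^ 2) ≤ y v + 2 * ρ)
    (hdown : ∀ v ∈ Ioo (0:ℝ) 1, ∀ ρ ∈ Ioo (0:ℝ) 1, y (v * (1 - ρ ^ 2)) ≤ y v + 2 * ρ)
    (a b : ℝ) (ha : 0 < a) (hb : b < 1) : ContinuousOn y (Icc a b) := by
  have hm : 0 < min a (1 - b) := lt_min ha (by linarith)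
  set m := min a (1 - b)
  have hm1 : m ≤ a := min_le_left _ _
  have hm2 : m ≤ 1 - b := min_le_right _ _
  rw [Metric.continuousOn_iff]
  intro v hv ε hε
  have hI : ∀ x ∈ Icc a b, x ∈ Ioo (0:ℝ) 1 := fun x hx =>
    ⟨by linarith [hx.1], by linarith [hx.2]⟩
  refine ⟨m * (ε / 4) ^ 2, by positivity, ?_⟩
  intro w hw hwv
  rw [Real.dist_eq] at hwv ⊢
  have h1 := contact_mod y hup hdown m v w hm (hI v hv) (hI w hw) (by linarith [hv.1])
    (by linarith [hv.2])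
  have h2 := contact_mod y hup hdown m w v hm (hI w hw) (hI v hv) (by linarith [hw.1])
    (by linarith [hw.2])
  rw [abs_sub_comm v w] at h2
  have h3 : √(|w - v| / m) < ε / 4 := by
    rw [Real.sqrt_lt' (by positivity), div_lt_iff₀ hm]
    linarith
  rw [abs_lt]
  constructor <;> linarith

theorem contact (y : ℝ → ℝ) (H0 : ℝ) (h0 : ∀ v ∈ Ioo (0:ℝ) 1, 0 ≤ y v)
    (hsmall : ∀ ρ ∈ Ioo (0:ℝ) 1, y (ρ ^ 2) ≤ 2 * ρ)
    (hlb : ∀ v ∈ Ioo (0:ℝ) 1, v * (√(1 - Real.log v) - 1) ≤ y v)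
    (hup : ∀ v ∈ Ioo (0:ℝ) 1, ∀ ρ ∈ Ioo (0:ℝ) 1, y (v + (1 - v) * ρ ^ 2) ≤ y v + 2 * ρ)
    (hdown : ∀ v ∈ Ioo (0:ℝ) 1, ∀ ρ ∈ Ioo (0:ℝ) 1, y (v * (1 - ρ ^ 2)) ≤ y v + 2 * ρ) :
    ∃ l ∈ Ioo (0:ℝ) 1, ∃ H K r : ℝ, H0 ≤ H ∧ 0 ≤ K ∧ 0 < r ∧
      ∀ v ∈ Ioo (0:ℝ) 1, |v - l| < r → y l + H * (v - l) - K * (v - l) ^ 2 ≤ y v := by
  obtain ⟨c, hcH, hc0⟩ : ∃ c : ℝ, H0 ≤ c ∧ 0 ≤ c := ⟨max H0 0, le_max_left _ _, le_max_right _ _⟩
  obtain ⟨v1, hv10, hv11, hy1⟩ : ∃ v1 : ℝ, 0 < v1 ∧ v1 < 1 ∧ (c + 1) * v1 ≤ y v1 := by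
    refine ⟨Real.exp (1 - (c + 2) ^ 2), Real.exp_pos _, ?_, ?_⟩
    · rw [Real.exp_lt_one_iff]; nlinarith
    · have h1 : Real.exp (1 - (c + 2) ^ 2) < 1 := by rw [Real.exp_lt_one_iff]; nlinarith
      have h2 := hlb _ ⟨Real.exp_pos (1 - (c + 2) ^ 2), h1⟩
      rw [Real.log_exp, sub_sub_cancel, Real.sqrt_sq (by linarith)] at h2
      linarith
  obtain ⟨a, ha0, hav, hya⟩ : ∃ a : ℝ, 0 < a ∧ a < v1 ∧ y a < v1 := by
    refine ⟨(v1 / 4) ^ 2, by positivity, by nlinarith, ?_⟩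
    have := hsmall (v1 / 4) ⟨by positivity, by linarith⟩
    linarith
  -- the function to be minimised
  obtain ⟨K, hK0, hK⟩ : ∃ K : ℝ, 0 ≤ K ∧ y a < K * (a - a / 2) ^ 2 := by
    refine ⟨v1 / (a / 2) ^ 2, by positivity, ?_⟩
    have h1 : a - a / 2 = a / 2 := by ring
    rw [h1, div_mul_cancel₀ _ (by positivity)]
    exact hya
  set F : ℝ → ℝ := fun v => y v - c * v + K * (max (a - v) 0) ^ 2 with hF
  have hcont : ContinuousOn F (Icc (a / 2) v1) := by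
    refine ((contact_cont y hup hdown (a / 2) v1 (by positivity) hv11).sub ?_).add ?_
    · fun_prop
    · fun_prop
  obtain ⟨l, hl, hmin⟩ := isCompact_Icc.exists_isMinOn (nonempty_Icc.2 (by linarith)) hcont
  have hmin' : ∀ v ∈ Icc (a / 2) v1, F l ≤ F v := fun v hv => hmin hv
  have hFa : F a = y a - c * a := by
    simp [hF]
  have hFl : F l ≤ y a - c * a := hFa ▸ hmin' a ⟨by linarith, hav.le⟩
  have hl1 : l ≠ a / 2 := by
    intro h
    rw [h] at hFl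
    have h1 : F (a / 2) = y (a / 2) - c * (a / 2) + K * (a - a / 2) ^ 2 := by
      simp only [hF]
      rw [max_eq_left (by linarith)]
    have h2 := h0 (a / 2) ⟨by positivity, by linarith⟩
    rw [h1] at hFl
    nlinarith
  have hl2 : l ≠ v1 := by
    intro h
    rw [h] at hFl
    have h1 : F v1 = y v1 - c * v1 := by
      simp only [hF]
      rw [max_eq_right (by linarith)]
      ring
    rw [h1] at hFl
    nlinarith
  have hla : a / 2 < l := lt_of_le_of_ne hl.1 (Ne.symm hl1)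
  have hlv : l < v1 := lt_of_le_of_ne hl.2 hl2
  refine ⟨l, ⟨by linarith, by linarith⟩, c + 2 * K * max (a - l) 0, K, min (l - a / 2) (v1 - l),
    ?_, hK0, lt_min (by linarith) (by linarith), ?_⟩
  · have : 0 ≤ max (a - l) 0 := le_max_right _ _
    nlinarith [mul_nonneg hK0 this]
  · intro v _ hvl
    rw [lt_min_iff, abs_lt, abs_lt] at hvl
    have h1 := hmin' v ⟨by linarith [hvl.1.1], by linarith [hvl.2.2]⟩
    simp only [hF] at h1
    -- the elementary inequality for `q t = (max t 0) ^ 2`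
    have h2 : (max (a - v) 0) ^ 2 ≤ (max (a - l) 0) ^ 2 - 2 * max (a - l) 0 * (v - l)
        + (v - l) ^ 2 := by
      rcases le_total (a - v) 0 with h3 | h3 <;> rcases le_total (a - l) 0 with h4 | h4
      · rw [max_eq_right h3, max_eq_right h4]; nlinarith [sq_nonneg (v - l)]
      · rw [max_eq_right h3, max_eq_left h4]; nlinarith [sq_nonneg (a - v)]
      · rw [max_eq_left h3, max_eq_right h4]; nlinarith
      · rw [max_eq_left h3, max_eq_left h4]; nlinarith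
    have h5 := mul_le_mul_of_nonneg_left h2 hK0
    nlinarith [h5, h1]

end Pool.Agent.H62
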